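import Pool.Agent.W84.G.Defs
import Pool.Agent.W56.FP.A0Q

/-!
Project G (helper84), task G4-A0N: many primitive elements of the colour `cg q`.
-/

set_option autoImplicit false

namespace Pool.Agent.W925.G.A0N

open Finset Filter
open Pool.Agent.H376R2.MR (w)
open Pool.Agent.W78.GA
open Pool.Agent.W78.GC
open Pool.Agent.W84.G
open Pool.Agent.W56.FP.A0Q (card_NP)

variable {t c : ℤ}

lemma bg_ge {Y : ℝ} (hY : 0 < Y) (z : Qd t c) (h1 : 0.72 * Y ≤ (nm z : ℝ))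
    (h2 : (nm z : ℝ) ≤ 1.3 * Y) : 1 / (4 * Y) ≤ bg Y z := by
  have hn : (0 : ℝ) < nm z := lt_of_lt_of_le (by positivity) h1
  unfold bg w
  have hr : 0 < (nm z : ℝ) / Y := by positivity
  have hr1 : 0.72 ≤ (nm z : ℝ) / Y := by rw [le_div_iff₀ hY]; exact h1
  have hr2 : (nm z : ℝ) / Y ≤ 1.3 := by rw [div_le_iff₀ hY]; exact h2
  have e : Real.log (nm z) - Real.log Y = Real.log ((nm z : ℝ) / Y) := by
    rw [Real.log_div hn.ne' hY.ne']
  rw [e]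
  have h3 := Real.log_le_sub_one_of_pos hr
  have h4 := Real.one_sub_inv_le_log_of_pos hr
  have h5 : ((nm z : ℝ) / Y)⁻¹ ≤ (0.72 : ℝ)⁻¹ := inv_anti₀ (by norm_num) hr1
  have h6 : (0.72 : ℝ)⁻¹ ≤ 1.4 := by norm_num
  have h7 : |Real.log ((nm z : ℝ) / Y)| ≤ 0.4 := by
    rw [abs_le]
    constructor <;> linarith
  have h8 : (0.6 : ℝ) ≤ max 0 (1 - |Real.log ((nm z : ℝ) / Y)|) := by
    refine le_max_of_le_right ?_
    linarith
  rw [div_le_div_iff₀ (by positivity) hn, one_mul]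
  have h9 := mul_le_mul_of_nonneg_right h8 (by positivity : 0 ≤ 4 * Y)
  linarith

lemma bg_nonneg (Y : ℝ) (z : Qd t c) : 0 ≤ bg Y z := by
  unfold bg w
  exact div_nonneg (le_max_left _ _) (Nat.cast_nonneg _)

/-- the norm is nearly constant on a small square -/
lemma near (tt cc κ M ρ L u v : ℝ) (hκ : κ = 1 + tt + cc) (hM : M = 1 + |tt| + cc) (hc : 0 ≤ cc)
    (hκ0 : 0 < κ) (hM0 : 0 < M) (hρ : ρ = κ / (40 * M)) (hρ1 : ρ ≤ 1) (hL : 0 < L)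
    (hu1 : (1 - ρ) * L ≤ u)
    (hu2 : u ≤ L) (hv1 : (1 - ρ) * L ≤ v) (hv2 : v ≤ L) :
    0.9 * (κ * L ^ 2) ≤ u ^ 2 + tt * u * v + cc * v ^ 2 ∧
      u ^ 2 + tt * u * v + cc * v ^ 2 ≤ 1.1 * (κ * L ^ 2) := by
  have h0 : 0 ≤ (1 - ρ) * L := mul_nonneg (by linarith) hL.le
  have hu0 : 0 ≤ u := h0.trans hu1
  have hv0 : 0 ≤ v := h0.trans hv1
  have key : ∀ a b : ℝ, (1 - ρ) * L ≤ a → a ≤ L → (1 - ρ) * L ≤ b → b ≤ L →
      0 ≤ L ^ 2 - a * b ∧ L ^ 2 - a * b ≤ 2 * ρ * L ^ 2 := by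
    intro a b ha1 ha2 hb1 hb2
    have ha0 : 0 ≤ a := h0.trans ha1
    have hb0 : 0 ≤ b := h0.trans hb1
    have e1 : a * b ≤ L * L := mul_le_mul ha2 hb2 hb0 hL.le
    have e2 : ((1 - ρ) * L) * ((1 - ρ) * L) ≤ a * b := mul_le_mul ha1 hb1 h0 ha0
    have e3 : 0 ≤ ρ ^ 2 * L ^ 2 := by positivity
    constructor
    · nlinarith
    · nlinarith
  obtain ⟨a1, a2⟩ := key u u hu1 hu2 hu1 hu2
  obtain ⟨b1, b2⟩ := key u v hu1 hu2 hv1 hv2
  obtain ⟨c1, c2⟩ := key v v hv1 hv2 hv1 hv2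
  have hid : u ^ 2 + tt * u * v + cc * v ^ 2 =
      κ * L ^ 2 - ((L ^ 2 - u * u) + tt * (L ^ 2 - u * v) + cc * (L ^ 2 - v * v)) := by
    rw [hκ]; ring
  have hb3 : |(L ^ 2 - u * u) + tt * (L ^ 2 - u * v) + cc * (L ^ 2 - v * v)| ≤
      M * (2 * ρ * L ^ 2) := by
    refine (abs_add_le _ _).trans ?_
    refine (add_le_add_left (abs_add_le _ _) _).trans ?_
    rw [abs_mul, abs_mul, abs_of_nonneg a1, abs_of_nonneg b1, abs_of_nonneg c1, abs_of_nonneg hc]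
    have d1 := mul_le_mul_of_nonneg_left b2 (abs_nonneg tt)
    have d2 := mul_le_mul_of_nonneg_left c2 hc
    rw [hM]
    linarith
  have hMρ : M * (2 * ρ * L ^ 2) = 0.05 * (κ * L ^ 2) := by
    rw [hρ]
    field_simp
    norm_num
  rw [hMρ] at hb3
  obtain ⟨e1, e2⟩ := abs_le.1 hb3
  rw [hid]
  have hkl : 0 ≤ κ * L ^ 2 := by positivity
  constructor <;> linarith

/-- **A0N.** -/
theorem a0n {t c : ℤ} (hD : t ^ 2 < 4 * c) : S_A0N t c := by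
  classical
  intro q₀ hq₀
  obtain ⟨q, hqq⟩ : ∃ q : ℕ, q = 2 * q₀ := ⟨_, rfl⟩
  have hq : 1 ≤ q := by omega
  have hq0 : (0 : ℝ) < q := by exact_mod_cast hq
  have hq1 : (1 : ℝ) ≤ q := by exact_mod_cast hq
  have hq2 : 2 ∣ q := ⟨q₀, hqq⟩
  have hqd : (q₀ : ℤ) ∣ (q : ℤ) := ⟨2, by rw [hqq]; push_cast; ring⟩
  -- constants
  have hκz : 1 ≤ 1 + t + c := by nlinarith [sq_nonneg (t + 2)]
  have hcz : 1 ≤ c := by nlinarith [sq_nonneg t]
  obtain ⟨κ, hκ⟩ : ∃ κ : ℝ, κ = 1 + (t : ℝ) + (c : ℝ) := ⟨_, rfl⟩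
  have hκ1 : 1 ≤ κ := by rw [hκ]; exact_mod_cast hκz
  have hκ0 : 0 < κ := by linarith
  have hc1 : (1 : ℝ) ≤ (c : ℝ) := by exact_mod_cast hcz
  obtain ⟨M, hM⟩ : ∃ M : ℝ, M = 1 + |(t : ℝ)| + (c : ℝ) := ⟨_, rfl⟩
  have hM0 : 0 < M := by
    have := abs_nonneg (t : ℝ)
    linarith
  have hκM : κ ≤ M := by
    have := le_abs_self (t : ℝ)
    linarith
  obtain ⟨ρ, hρ⟩ : ∃ ρ : ℝ, ρ = κ / (40 * M) := ⟨_, rfl⟩
  have hρ0 : 0 < ρ := by rw [hρ]; positivity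
  have hρ40 : ρ ≤ 1 / 40 := by
    rw [hρ, div_le_div_iff₀ (by positivity) (by norm_num)]
    linarith
  refine ⟨ρ ^ 2 / (16 * κ * (q : ℝ) ^ 2), by positivity, ?_⟩
  -- large R
  have hlog : ∀ᶠ R : ℝ in atTop, Real.log R ≤ ρ / 4 * R := by
    have h := Real.isLittleO_log_id_atTop.bound (show (0 : ℝ) < ρ / 4 by positivity)
    filter_upwards [h, eventually_ge_atTop 1] with R h1 h2
    rw [Real.norm_of_nonneg (Real.log_nonneg h2), id, Real.norm_of_nonneg (by linarith)] at h1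
    exact h1
  obtain ⟨R₀, hR₀⟩ := eventually_atTop.1 (hlog.and (eventually_ge_atTop (8 / ρ ^ 2 + 24 / ρ + 10)))
  set R₁ : ℝ := max R₀ 1 with hR₁
  have hR₁0 : 1 ≤ R₁ := le_max_right _ _
  refine ⟨κ * (q * R₁) ^ 2, ?_⟩
  intro Y hY
  have hYpos : 0 < Y := lt_of_lt_of_le (by positivity) hY
  obtain ⟨L, hL0, hL2⟩ : ∃ L : ℝ, 0 < L ∧ κ * L ^ 2 = Y := by
    refine ⟨Real.sqrt (Y / κ), Real.sqrt_pos.2 (by positivity), ?_⟩
    rw [Real.sq_sqrt (by positivity)]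
    field_simp
  have hqL : q * R₁ ≤ L := by
    have h1 : (q * R₁) ^ 2 ≤ L ^ 2 := by
      have : κ * (q * R₁) ^ 2 ≤ κ * L ^ 2 := by rw [hL2]; exact hY
      exact le_of_mul_le_mul_left this hκ0
    exact (abs_le_of_sq_le_sq' h1 hL0.le).2
  obtain ⟨R, hR⟩ : ∃ R : ℝ, R = L / q := ⟨_, rfl⟩
  have hqR : q * R = L := by rw [hR]; field_simp
  have hR1 : R₁ ≤ R := by
    rw [hR, le_div_iff₀ hq0, mul_comm]; exact hqL
  obtain ⟨hlR, hRbig⟩ := hR₀ R ((le_max_left _ _).trans hR1)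
  have hR10 : 10 ≤ R := by
    have : 0 ≤ 8 / ρ ^ 2 + 24 / ρ := by positivity
    linarith
  have hRpos : 0 < R := by linarith
  have hρR : 8 ≤ ρ * R := by
    have h1 : 8 / ρ ≤ R := by
      have : 0 ≤ 8 / ρ ^ 2 := by positivity
      have h24 : 24 / ρ = 3 * (8 / ρ) := by ring
      have : 0 ≤ 8 / ρ := by positivity
      linarith
    rw [div_le_iff₀ hρ0] at h1
    linarith
  have hρ2R : 8 + 24 * ρ ≤ ρ ^ 2 * R := by
    have h1 : 8 / ρ ^ 2 + 24 / ρ ≤ R := by linarith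
    have h2 := mul_le_mul_of_nonneg_left h1 (sq_nonneg ρ)
    have h3 : ρ ^ 2 * (8 / ρ ^ 2 + 24 / ρ) = 8 + 24 * ρ := by
      field_simp
    linarith
  obtain ⟨a, ha⟩ : ∃ a : ℕ, a = ⌈(1 - ρ) * R⌉₊ := ⟨_, rfl⟩
  obtain ⟨b, hb⟩ : ∃ b : ℕ, b = ⌊R - 1⌋₊ := ⟨_, rfl⟩
  have h1ρ : 0 ≤ (1 - ρ) * R := mul_nonneg (by linarith) hRpos.le
  have ha1 : (1 - ρ) * R ≤ a := by rw [ha]; exact Nat.le_ceil _
  have ha2 : (a : ℝ) < (1 - ρ) * R + 1 := by rw [ha]; exact Nat.ceil_lt_add_one h1ρ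
  have hb1 : (b : ℝ) ≤ R - 1 := by rw [hb]; exact Nat.floor_le (by linarith)
  have hb2 : R - 1 < b + 1 := by rw [hb]; exact Nat.lt_floor_add_one _
  have hba1 : ρ * R - 3 ≤ (b : ℝ) - a := by linarith
  have hba2 : (b : ℝ) - a ≤ ρ * R := by linarith
  have hab' : (a : ℝ) ≤ b := by linarith
  have hab : a ≤ b := by exact_mod_cast hab'
  have hbpos : (0 : ℝ) < b := by linarith
  obtain ⟨P, hP⟩ : ∃ P : Finset (ℕ × ℕ), P = (Ioc a b) ×ˢ (Ioc a b) := ⟨_, rfl⟩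
  have hcardP : (P.card : ℝ) = ((b : ℝ) - a) ^ 2 := by
    rw [hP, card_product, Nat.card_Ioc]
    push_cast [Nat.cast_sub hab]
    ring
  obtain ⟨G, hG⟩ : ∃ G : Finset (ℕ × ℕ),
    G = P.filter (fun p => Nat.Coprime (1 + q * p.1) (q * p.2)) := ⟨_, rfl⟩
  have hsplit : (G.card : ℝ) + ((P.filter (fun p => ¬ Nat.Coprime (1 + q * p.1) (q * p.2))).card : ℝ) =
      ((b : ℝ) - a) ^ 2 := by
    rw [← hcardP, hG]
    exact_mod_cast card_filter_add_card_filter_not (s := P) (fun p => Nat.Coprime (1 + q * p.1) (q * p.2))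
  have hNP := card_NP q a b hq2 hab
  rw [← hP] at hNP
  have hlogb : Real.log b ≤ ρ / 4 * R := (Real.log_le_log hbpos (by linarith)).trans hlR
  have hGcard : ρ ^ 2 * R ^ 2 / 4 ≤ (G.card : ℝ) := by
    have h1 : ((b : ℝ) - a) * (1 + Real.log b) ≤ (ρ * R) * (1 + ρ / 4 * R) := by
      have hl0 : 0 ≤ Real.log b := Real.log_nonneg (by linarith)
      exact mul_le_mul hba2 (by linarith) (by linarith) (by positivity)
    have h2 : (ρ * R - 3) ^ 2 ≤ ((b : ℝ) - a) ^ 2 :=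
      pow_le_pow_left₀ (by linarith) hba1 2
    have h4 : (ρ * R - 3) ^ 2 = ρ ^ 2 * R ^ 2 - 6 * (ρ * R) + 9 := by ring
    have h5 : (ρ * R) * (1 + ρ / 4 * R) = ρ * R + ρ ^ 2 * R ^ 2 / 4 := by ring
    have h6 : (8 + 24 * ρ) * R ≤ (ρ ^ 2 * R) * R := mul_le_mul_of_nonneg_right hρ2R hRpos.le
    have h7 : (ρ ^ 2 * R) * R = ρ ^ 2 * R ^ 2 := by ring
    rw [h4] at h2
    rw [h5] at h1
    rw [h7] at h6
    linarith
  -- the map
  obtain ⟨φ, hφ⟩ : ∃ φ : ℕ × ℕ → Qd t c, φ = fun p => ⟨1 + (q : ℤ) * p.1, (q : ℤ) * p.2⟩ :=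
    ⟨_, rfl⟩
  have hinj : Set.InjOn φ (G : Set (ℕ × ℕ)) := by
    rintro ⟨x, y⟩ _ ⟨x', y'⟩ _ h
    have hqz : (q : ℤ) ≠ 0 := by exact_mod_cast (by omega : q ≠ 0)
    have h1 := congrArg QuadraticAlgebra.re h
    have h2 := congrArg QuadraticAlgebra.im h
    simp only [hφ] at h1 h2
    have h3 : (x : ℤ) = x' := mul_left_cancel₀ hqz (by linarith)
    have h4 : (y : ℤ) = y' := mul_left_cancel₀ hqz h2
    rw [Prod.mk.injEq]
    exact ⟨by exact_mod_cast h3, by exact_mod_cast h4⟩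
  have hkey : ∀ p ∈ G, φ p ∈ cball (cg q₀) (Real.exp 1 * Y) ∧ 1 / (4 * Y) ≤ bg Y (φ p) := by
    rintro ⟨x, y⟩ hp
    rw [hG, mem_filter, hP, mem_product, mem_Ioc, mem_Ioc] at hp
    obtain ⟨⟨⟨hx1, hx2⟩, ⟨hy1, hy2⟩⟩, hcop⟩ := hp
    simp only at hx1 hx2 hy1 hy2 hcop
    have hx1' : (a : ℝ) ≤ x := by exact_mod_cast hx1.le
    have hx2' : (x : ℝ) ≤ b := by exact_mod_cast hx2
    have hy1' : (a : ℝ) ≤ y := by exact_mod_cast hy1.le
    have hy2' : (y : ℝ) ≤ b := by exact_mod_cast hy2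
    have hnm : (nm (φ (x, y)) : ℝ) = (1 + q * x) ^ 2 + t * (1 + q * x) * (q * y) +
        c * (q * y) ^ 2 := by
      rw [nm_castR hD]
      simp only [hφ]
      push_cast
      ring
    have ex1 : (1 - ρ) * L ≤ q * x := by
      have h1 := mul_le_mul_of_nonneg_left (show (1 - ρ) * R ≤ x by linarith) hq0.le
      have e : (q : ℝ) * ((1 - ρ) * R) = (1 - ρ) * L := by rw [← hqR]; ring
      linarith
    have ex2 : 1 + q * x ≤ L := by
      have h1 := mul_le_mul_of_nonneg_left (show (x : ℝ) ≤ R - 1 by linarith) hq0.le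
      have e : (q : ℝ) * (R - 1) = L - q := by rw [← hqR]; ring
      linarith
    have ey1 : (1 - ρ) * L ≤ q * y := by
      have h1 := mul_le_mul_of_nonneg_left (show (1 - ρ) * R ≤ y by linarith) hq0.le
      have e : (q : ℝ) * ((1 - ρ) * R) = (1 - ρ) * L := by rw [← hqR]; ring
      linarith
    have ey2 : q * y ≤ L := by
      have h1 := mul_le_mul_of_nonneg_left (show (y : ℝ) ≤ R - 1 by linarith) hq0.le
      have e : (q : ℝ) * (R - 1) = L - q := by rw [← hqR]; ring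
      linarith
    obtain ⟨n1, n2⟩ := near (t : ℝ) (c : ℝ) κ M ρ L (1 + q * x) (q * y) hκ hM (by linarith) hκ0
      hM0 hρ (by linarith) hL0 (by linarith) ex2 ey1 ey2
    rw [← hnm, hL2] at n1 n2
    refine ⟨?_, bg_ge hYpos _ (by linarith) (by linarith)⟩
    unfold cball
    rw [mem_filter, mem_pball hD]
    refine ⟨⟨?_, ?_⟩, ?_⟩
    · unfold prim
      simp only [hφ]
      have h1 : (1 + (q : ℤ) * x) = ((1 + q * x : ℕ) : ℤ) := by push_cast; ring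
      have h2 : ((q : ℤ) * y) = ((q * y : ℕ) : ℤ) := by push_cast; ring
      rw [h1, h2, Int.gcd_natCast_natCast]
      exact hcop
    · refine n2.trans ?_
      exact mul_le_mul_of_nonneg_right (by linarith [Real.exp_one_gt_d9]) hYpos.le
    · refine ⟨?_, 1, ?_, ?_⟩
      · simp only [hφ]
        exact hqd.trans (dvd_mul_right _ _)
      · exact jacobiSym.one_right _
      · simp only [hφ]
        have : ((1 : ℕ) : ℤ) * (1 + (q : ℤ) * x) - 1 = (q : ℤ) * x := by push_cast; ring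
        rw [this]
        exact hqd.trans (dvd_mul_right _ _)
  calc (ρ ^ 2 / (16 * κ * (q : ℝ) ^ 2)) ≤ (G.card : ℝ) * (1 / (4 * Y)) := by
        have e : Y = κ * ((q : ℝ) ^ 2 * R ^ 2) := by rw [← hL2, ← hqR]; ring
        have h1 : ρ ^ 2 * R ^ 2 / 4 * (1 / (4 * Y)) = ρ ^ 2 / (16 * κ * (q : ℝ) ^ 2) := by
          rw [e]
          field_simp
          norm_num
        rw [← h1]
        exact mul_le_mul_of_nonneg_right hGcard (by positivity)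
    _ = ∑ p ∈ G, 1 / (4 * Y) := by rw [sum_const, nsmul_eq_mul]
    _ ≤ ∑ p ∈ G, bg Y (φ p) := sum_le_sum fun p hp => (hkey p hp).2
    _ = ∑ z ∈ G.image φ, bg Y z := by rw [sum_image hinj]
    _ ≤ ∑ z ∈ cball (cg q₀) (Real.exp 1 * Y), bg Y z := by
        apply sum_le_sum_of_subset_of_nonneg
        · intro z hz
          rw [mem_image] at hz
          obtain ⟨p, hp, rfl⟩ := hz
          exact (hkey p hp).1
        · intro z _ _
          exact bg_nonneg Y z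

end Pool.Agent.W925.G.A0N
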