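import Pool.Agent.W84.G.Defs
import Pool.Agent.W80.GB.Rich2

/-!
Project G (helper84), task G4-RICH: almost all elements are rich, negative discriminant
(port of W80.GC.Rich of helper80).
-/

set_option autoImplicit false

namespace Pool.Agent.W925.G.RichN

open Finset Filter
open Pool.Agent.H376R2.MR
open Pool.Agent.W78.GA
open Pool.Agent.W84.G
open Pool.Agent.W80.GB (avoid_small)

variable {t c : ℤ}

theorem split_root {q : ℕ} (hq : q.Prime) (hq2 : Odd q)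
    (hJ : jacobiSym (t ^ 2 - 4 * c) q = 1) : ∃ ρ : ℤ, (q : ℤ) ∣ ρ ^ 2 - t * ρ + c := by
  haveI : Fact q.Prime := ⟨hq⟩
  rw [← jacobiSym.legendreSym.to_jacobiSym] at hJ
  have h0 : ((t ^ 2 - 4 * c : ℤ) : ZMod q) ≠ 0 := by
    intro h
    rw [(legendreSym.eq_zero_iff q _).2 h] at hJ
    norm_num at hJ
  obtain ⟨y, hy⟩ := (legendreSym.eq_one_iff q h0).1 hJ
  obtain ⟨k, hk⟩ := hq2
  have h1 : (q : ℤ) ∣ (y.val : ℤ) ^ 2 - (t ^ 2 - 4 * c) := by
    rw [← ZMod.intCast_zmod_eq_zero_iff_dvd _ q]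
    push_cast
    rw [ZMod.natCast_val, ZMod.cast_id]
    push_cast at hy
    have : (y : ZMod q) ^ 2 = y * y := sq y
    rw [this, ← hy]
    ring
  refine ⟨((y.val : ℤ) + t) * (k + 1), ?_⟩
  have hk' : (q : ℤ) = 2 * k + 1 := by exact_mod_cast hk
  have hcop : IsCoprime (q : ℤ) 4 := by
    rw [hk']
    exact ⟨(2 * k + 1), -(k ^ 2 + k), by ring⟩
  apply hcop.dvd_of_dvd_mul_left
  have e : 4 * ((((y.val : ℤ) + t) * (k + 1)) ^ 2 - t * (((y.val : ℤ) + t) * (k + 1)) + c) =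
      ((y.val : ℤ) ^ 2 - (t ^ 2 - 4 * c)) + (q : ℤ) * (((y.val : ℤ) + t) ^ 2 * (2 * k + 3) -
        2 * t * ((y.val : ℤ) + t)) := by
    rw [hk']
    ring
  rw [e]
  exact dvd_add h1 (dvd_mul_right _ _)

lemma jac_congr {D : ℤ} {A q r : ℕ} (hA : 4 * D ∣ (A : ℤ)) (hA0 : A ≠ 0)
    (hr : Nat.Coprime r A) (h : (A : ℤ) ∣ (q : ℤ) - r) : jacobiSym D q = jacobiSym D r := by
  have h2A : (2 : ℤ) ∣ A := ((by norm_num : (2 : ℤ) ∣ 4).trans (Dvd.intro _ rfl)).trans hA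
  have hrodd : Odd r := by
    rw [← Nat.coprime_two_right]
    exact Nat.Coprime.coprime_dvd_right (by exact_mod_cast h2A) hr
  have hqodd : Odd q := by
    have h1 := h2A.trans h
    rw [Nat.odd_iff] at hrodd ⊢
    omega
  rw [jacobiSym.mod_right _ hqodd, jacobiSym.mod_right _ hrodd]
  have h6 : ((4 * D.natAbs : ℕ) : ℤ) ∣ (q : ℤ) - r := by
    push_cast
    have : |4 * D| ∣ (q : ℤ) - r := (abs_dvd _ _).2 (hA.trans h)
    rwa [abs_mul, abs_of_pos (by norm_num : (0 : ℤ) < 4)] at this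
  have h7 : r ≡ q [MOD (4 * D.natAbs)] := by
    rw [Nat.modEq_iff_dvd]
    exact_mod_cast h6
  rw [h7.symm]

lemma class_primes {A : ℕ} (hA : 4 * (t ^ 2 - 4 * c) ∣ (A : ℤ)) (hA0 : A ≠ 0) {r : ℕ}
    (hr : Nat.Coprime r A) (hJ : jacobiSym (t ^ 2 - 4 * c) r = 1) (P₀ : ℕ) (W₀ : ℝ) :
    ∃ (T : Finset ℕ) (ρ : ℕ → ℤ),
      (∀ q ∈ T, q.Prime ∧ P₀ < q ∧ (A : ℤ) ∣ (q : ℤ) - r ∧ (q : ℤ) ∣ ρ q ^ 2 - t * ρ q + c) ∧
      W₀ ≤ ∑ q ∈ T, 1 / (q : ℝ) := by
  classical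
  have : NeZero A := ⟨hA0⟩
  have hunit : IsUnit (r : ZMod A) := (ZMod.unitOfCoprime r hr).isUnit
  have hns := Pool.Agent.H98R3.OM.not_summable_class hunit
  rw [not_summable_iff_tendsto_nat_atTop_of_nonneg (fun n => by split_ifs <;> positivity)] at hns
  obtain ⟨n, hn⟩ := (hns.eventually_ge_atTop (W₀ + ∑ q ∈ range (P₀ + 1), 1 / (q : ℝ))).exists
  have hroot : ∀ q : ℕ, q.Prime → (A : ℤ) ∣ (q : ℤ) - r →
      ∃ ρ : ℤ, (q : ℤ) ∣ ρ ^ 2 - t * ρ + c := by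
    intro q hq hqr
    have h1 := jac_congr hA hA0 hr hqr
    rw [hJ] at h1
    apply split_root hq ?_ h1
    have h2A : (2 : ℤ) ∣ A := ((by norm_num : (2 : ℤ) ∣ 4).trans (Dvd.intro _ rfl)).trans hA
    have hrodd : Odd r := by
      rw [← Nat.coprime_two_right]
      exact Nat.Coprime.coprime_dvd_right (by exact_mod_cast h2A) hr
    have h1 := h2A.trans hqr
    rw [Nat.odd_iff] at hrodd ⊢
    omega
  have hcls : ∀ q : ℕ, (q : ZMod A) = ((r : ℕ) : ZMod A) → (A : ℤ) ∣ (q : ℤ) - r := by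
    intro q hq
    rw [← ZMod.intCast_zmod_eq_zero_iff_dvd _ A]
    push_cast at hq ⊢
    rw [hq, sub_self]
  choose! ρ hρ using hroot
  refine ⟨(range n).filter (fun q : ℕ => (q.Prime ∧ (q : ZMod A) = ((r : ℕ) : ZMod A)) ∧ P₀ < q), ρ,
    ?_, ?_⟩
  · intro q hq
    rw [mem_filter] at hq
    exact ⟨hq.2.1.1, hq.2.2, hcls q hq.2.1.2, hρ q hq.2.1.1 (hcls q hq.2.1.2)⟩
  · have h1 : ∑ q ∈ (range n).filter (fun q : ℕ => q.Prime ∧ (q : ZMod A) = ((r : ℕ) : ZMod A)),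
        1 / (q : ℝ) ≤ ∑ q ∈ (range n).filter (fun q : ℕ => (q.Prime ∧
          (q : ZMod A) = ((r : ℕ) : ZMod A)) ∧ P₀ < q), 1 / (q : ℝ) +
          ∑ q ∈ range (P₀ + 1), 1 / (q : ℝ) := by
      rw [← sum_filter_add_sum_filter_not ((range n).filter (fun q : ℕ => q.Prime ∧
        (q : ZMod A) = ((r : ℕ) : ZMod A))) (fun q : ℕ => P₀ < q), filter_filter]
      apply add_le_add le_rfl
      apply sum_le_sum_of_subset_of_nonneg
      · intro q hq
        rw [mem_filter] at hq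
        rw [mem_range]
        have := hq.2
        omega
      · intro _ _ _
        positivity
    rw [sum_filter] at h1
    linarith

theorem rich_all (hD : t ^ 2 < 4 * c) (hlat : S_LAT t c) {A : ℕ}
    (hA : 4 * (t ^ 2 - 4 * c) ∣ (A : ℤ)) (hA0 : 0 < A) (P₀ : ℕ) {δ : ℝ} (hδ : 0 < δ) :
    ∃ (P : ℕ) (X₀ : ℝ), ∀ X : ℝ, X₀ ≤ X → (open scoped Classical in
      (((ball t c X).filter (fun z => ¬ Ri A P₀ P z)).card : ℝ)) ≤ δ * X := by
  classical
  have hAR : (0 : ℝ) < A := by exact_mod_cast hA0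
  -- one class
  have hone : ∀ b : ℕ, ∃ (P : ℕ) (X₀ : ℝ), Nat.Coprime b A →
      jacobiSym (t ^ 2 - 4 * c) b = 1 → ∀ X : ℝ, X₀ ≤ X →
      (((ball t c X).filter (fun z => ¬ ∃ q : ℕ, q.Prime ∧ P₀ < q ∧ q ≤ P ∧ q ∣ nm z ∧
        (A : ℤ) ∣ (q : ℤ) - b)).card : ℝ) ≤ δ / A * X := by
    intro b
    by_cases hb : Nat.Coprime b A ∧ jacobiSym (t ^ 2 - 4 * c) b = 1
    · obtain ⟨T, ρ, hT, hW⟩ := class_primes hA hA0.ne' hb.1 hb.2 P₀ (2 * kap t c / (δ / A) + 1)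
      obtain ⟨X₀, hX₀⟩ := avoid_small hD hlat (by positivity : 0 < δ / A) T
        (fun q hq => (hT q hq).1) ρ hW
      refine ⟨T.sup id, X₀, fun _ _ X hX => ?_⟩
      refine le_trans ?_ (hX₀ X hX)
      have : ((ball t c X).filter (fun z => ¬ ∃ q : ℕ, q.Prime ∧ P₀ < q ∧ q ≤ T.sup id ∧
        q ∣ nm z ∧ (A : ℤ) ∣ (q : ℤ) - b)) ⊆
        (ball t c X).filter (fun z => ∀ q ∈ T, ¬ lat q (ρ q) z) := by
        intro z hz
        rw [mem_filter] at hz ⊢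
        refine ⟨hz.1, fun q hq hl => hz.2 ⟨q, (hT q hq).1, (hT q hq).2.1,
          Finset.le_sup (f := id) hq, ?_, (hT q hq).2.2.1⟩⟩
        exact nm_mod_lat hD (hT q hq).2.2.2 hl
      exact_mod_cast card_le_card this
    · exact ⟨0, 0, fun h1 h2 => absurd ⟨h1, h2⟩ hb⟩
  choose P X₀ hP using hone
  refine ⟨(range A).sup P, ∑ b ∈ range A, |X₀ b|, fun X hX => ?_⟩
  have hsub : (ball t c X).filter (fun z => ¬ Ri A P₀ ((range A).sup P) z) ⊆
      ((range A).filter (fun b : ℕ => Nat.Coprime b A ∧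
        jacobiSym (t ^ 2 - 4 * c) b = 1)).biUnion (fun b : ℕ =>
        (ball t c X).filter (fun z => ¬ ∃ q : ℕ, q.Prime ∧ P₀ < q ∧ q ≤ P b ∧ q ∣ nm z ∧
          (A : ℤ) ∣ (q : ℤ) - b)) := by
    intro z hz
    rw [mem_filter] at hz
    obtain ⟨hz1, hz2⟩ := hz
    unfold Ri at hz2
    push Not at hz2
    obtain ⟨r, hr, hrJ, h⟩ := hz2
    have hbr : (A : ℤ) ∣ (r : ℤ) - ((r % A : ℕ) : ℤ) := by
      push_cast
      exact Int.dvd_self_sub_emod
    have hblt : r % A < A := Nat.mod_lt _ hA0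
    have hbc : Nat.Coprime (r % A) A := by
      rw [Nat.coprime_comm, Nat.coprime_iff_gcd_eq_one, Nat.gcd_comm, ← Nat.gcd_rec, Nat.gcd_comm]
      exact hr
    have hbJ : jacobiSym (t ^ 2 - 4 * c) (r % A : ℕ) = 1 := by
      rw [← jac_congr hA hA0.ne' hbc hbr]
      exact hrJ
    rw [mem_biUnion]
    refine ⟨r % A, by rw [mem_filter, mem_range]; exact ⟨hblt, hbc, hbJ⟩, ?_⟩
    rw [mem_filter]
    refine ⟨hz1, ?_⟩
    rintro ⟨q, hq, hq0, hqP, hqn, hqb⟩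
    refine h q hq hq0 (hqP.trans (Finset.le_sup (mem_range.2 hblt))) hqn ?_
    have e : (q : ℤ) - r = (q - ((r % A : ℕ) : ℤ)) - (r - ((r % A : ℕ) : ℤ)) := by ring
    rw [e]
    exact dvd_sub hqb hbr
  calc (((ball t c X).filter (fun z => ¬ Ri A P₀ ((range A).sup P) z)).card : ℝ)
      ≤ ((((range A).filter (fun b : ℕ => Nat.Coprime b A ∧
        jacobiSym (t ^ 2 - 4 * c) b = 1)).biUnion (fun b : ℕ =>
        (ball t c X).filter (fun z => ¬ ∃ q : ℕ, q.Prime ∧ P₀ < q ∧ q ≤ P b ∧ q ∣ nm z ∧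
          (A : ℤ) ∣ (q : ℤ) - b))).card : ℝ) := by
        exact_mod_cast card_le_card hsub
    _ ≤ ∑ b ∈ (range A).filter (fun b : ℕ => Nat.Coprime b A ∧
        jacobiSym (t ^ 2 - 4 * c) b = 1),
        (((ball t c X).filter (fun z => ¬ ∃ q : ℕ, q.Prime ∧ P₀ < q ∧ q ≤ P b ∧ q ∣ nm z ∧
          (A : ℤ) ∣ (q : ℤ) - b)).card : ℝ) := by
        exact_mod_cast card_biUnion_le
    _ ≤ ∑ b ∈ (range A).filter (fun b : ℕ => Nat.Coprime b A ∧
        jacobiSym (t ^ 2 - 4 * c) b = 1), δ / A * X := by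
        refine sum_le_sum fun b hb => ?_
        rw [mem_filter, mem_range] at hb
        apply hP b hb.2.1 hb.2.2 X
        refine le_trans ?_ hX
        refine (le_abs_self _).trans ?_
        exact single_le_sum (f := fun b => |X₀ b|) (fun _ _ => abs_nonneg _) (mem_range.2 hb.1)
    _ ≤ ∑ _b ∈ range A, δ / A * X := by
        apply sum_le_sum_of_subset_of_nonneg (filter_subset _ _)
        intro b _ _
        have : 0 ≤ X := le_trans (sum_nonneg fun _ _ => abs_nonneg _) hX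
        positivity
    _ = δ * X := by
        rw [sum_const, card_range, nsmul_eq_mul]
        field_simp


/-- **RICHN.** -/
theorem richn {t c : ℤ} (hD : t ^ 2 < 4 * c) (hlat : S_LAT t c) : S_RICHN t c := by
  classical
  intro A P₀ hA0 hA δ hδ
  obtain ⟨P, X₀, h⟩ := rich_all hD hlat hA hA0 P₀ hδ
  refine ⟨P, X₀, fun X hX => le_trans ?_ (h X hX)⟩
  have : (pball t c X).filter (fun z => ¬ Ri A P₀ P z) ⊆
      (ball t c X).filter (fun z => ¬ Ri A P₀ P z) := by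
    intro z hz
    rw [mem_filter] at hz ⊢
    refine ⟨?_, hz.2⟩
    have h1 := hz.1
    unfold pball at h1
    exact (mem_filter.1 h1).1
  exact_mod_cast card_le_card this

end Pool.Agent.W925.G.RichN
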